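import Pool.Agent.BSE.Stmts3

/-!
# RF3: reduction to real tensors
-/

set_option autoImplicit false

namespace Pool.Agent.BSE.H72

open Pool.Agent.BSE Pool.Agent.Helper64_FR Finset MeasureTheory

variable {n : ℕ}

theorem continuous_TB (B : Finset (Fin n)) (c : Fin n → ℝ) :
    Continuous fun A : UB B => TB B (A : UU n) c := by
  refine continuous_pi fun i => ?_
  unfold TB
  by_cases h : i ∈ B
  · simp only [h, dif_pos]
    refine continuous_finsetSum _ fun j _ => Continuous.mul (Continuous.pow (Continuous.norm ?_) 2)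
      continuous_const
    exact (continuous_apply_apply j _).comp (continuous_subtype_val.comp continuous_subtype_val)
  · simp only [h, dif_neg, not_false_iff]
    exact continuous_const

theorem continuous_cub (F : Fin n → Fin n → Fin n → ℝ) : Continuous (cub F) := by
  unfold cub
  fun_prop

theorem integrable_cub (F : Fin n → Fin n → Fin n → ℝ) (B : Finset (Fin n)) (c : Fin n → ℝ) :
    Integrable (fun A : UB B => cub F (TB B (A : UU n) c)) (haarB B) := by
  unfold haarB
  exact ((continuous_cub F).comp (continuous_TB B c)).integrable_of_hasCompactSupport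
    (HasCompactSupport.of_compactSpace _)

/-- the cube of a sum -/
theorem cube_sum (y : Fin n → ℂ) :
    (∑ i, y i) ^ 3 = ∑ i, ∑ j, ∑ k, y i * y j * y k := by
  have h : (∑ i, y i) ^ 3 = (∑ i, y i) * (∑ j, y j) * ∑ k, y k := by ring
  rw [h, sum_mul_sum, sum_mul]
  refine sum_congr rfl fun i _ => ?_
  rw [sum_mul_sum]

/-- RF3 -/
theorem rf3 : RF3Stmt := by
  rintro n w x f ⟨N, a, X, hX, hf⟩ ⟨c0, hc0⟩ hE
  set Φ : Fin n → Fin n → Fin n → ℂ := fun i j k => ∑ t, a t * (X t i * X t j * X t k) with hΦ
  set F1 : Fin n → Fin n → Fin n → ℝ := fun i j k => (Φ i j k).re with hF1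
  set F2 : Fin n → Fin n → Fin n → ℝ := fun i j k => (Φ i j k).im with hF2
  have s1 : ∀ i j k, Φ i j k = Φ j i k := by
    intro i j k
    simp only [hΦ]
    refine sum_congr rfl fun t _ => ?_
    ring
  have s2 : ∀ i j k, Φ i j k = Φ i k j := by
    intro i j k
    simp only [hΦ]
    refine sum_congr rfl fun t _ => ?_
    ring
  have s3 : ∀ j k, ∑ i, Φ i j k = 0 := by
    intro j k
    simp only [hΦ]
    rw [sum_comm]
    refine sum_eq_zero fun t _ => ?_
    have h1 : ∀ i, a t * (X t i * X t j * X t k) = a t * (X t j * X t k) * X t i := by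
      intro i
      ring
    simp only [h1]
    rw [← mul_sum, hX t, mul_zero]
  have hfΦ : ∀ c, f c = ∑ i, ∑ j, ∑ k, Φ i j k * ((c i : ℂ) * c j * c k) := by
    intro c
    rw [hf c]
    simp only [hΦ, sum_mul]
    have h1 : ∀ t, a t * (∑ i, X t i * (c i : ℂ)) ^ 3 =
        ∑ i, ∑ j, ∑ k, a t * (X t i * X t j * X t k) * ((c i : ℂ) * c j * c k) := by
      intro t
      rw [cube_sum, mul_sum]
      refine sum_congr rfl fun i _ => ?_
      rw [mul_sum]
      refine sum_congr rfl fun j _ => ?_
      rw [mul_sum]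
      refine sum_congr rfl fun k _ => ?_
      ring
    simp only [h1]
    rw [sum_comm]
    refine sum_congr rfl fun i _ => ?_
    rw [sum_comm]
    refine sum_congr rfl fun j _ => ?_
    rw [sum_comm]
  have hre : ∀ c, (f c).re = cub F1 c := by
    intro c
    rw [hfΦ c]
    unfold cub
    simp only [Complex.re_sum, hF1]
    refine sum_congr rfl fun i _ => sum_congr rfl fun j _ => sum_congr rfl fun k _ => ?_
    rw [← Complex.ofReal_mul, ← Complex.ofReal_mul, Complex.re_mul_ofReal]
  have him : ∀ c, (f c).im = cub F2 c := by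
    intro c
    rw [hfΦ c]
    unfold cub
    simp only [Complex.im_sum, hF2]
    refine sum_congr rfl fun i _ => sum_congr rfl fun j _ => sum_congr rfl fun k _ => ?_
    rw [← Complex.ofReal_mul, ← Complex.ofReal_mul, Complex.im_mul_ofReal]
  have hfc : ∀ c, f c = (cub F1 c : ℂ) + (cub F2 c : ℂ) * Complex.I := by
    intro c
    rw [← hre, ← him, Complex.re_add_im]
  have hint : ∀ (B : Finset (Fin n)) (c : Fin n → ℝ),
      ∫ A : UB B, f (TB B (A : UU n) c) ∂(haarB B) =
        ((∫ A : UB B, cub F1 (TB B (A : UU n) c) ∂(haarB B) : ℝ) : ℂ) +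
        ((∫ A : UB B, cub F2 (TB B (A : UU n) c) ∂(haarB B) : ℝ) : ℂ) * Complex.I := by
    intro B c
    simp only [hfc]
    rw [integral_add (integrable_cub F1 B c).ofReal ((integrable_cub F2 B c).ofReal.mul_const _),
      integral_mul_const, integral_complex_ofReal, integral_complex_ofReal]
  have e1 : ∀ c : Fin n → ℝ, ∑ B : Finset (Fin n), w B *
      (cub F1 c - ∫ A : UB B, cub F1 (TB B (A : UU n) c) ∂(haarB B)) = x * cub F1 c := by
    intro c
    have h := congrArg Complex.re (hE c)
    rw [Complex.re_sum, Complex.re_ofReal_mul, hre] at h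
    rw [← h]
    refine sum_congr rfl fun B _ => ?_
    rw [Complex.re_ofReal_mul, hint, Complex.sub_re, hre]
    simp
  have e2 : ∀ c : Fin n → ℝ, ∑ B : Finset (Fin n), w B *
      (cub F2 c - ∫ A : UB B, cub F2 (TB B (A : UU n) c) ∂(haarB B)) = x * cub F2 c := by
    intro c
    have h := congrArg Complex.im (hE c)
    rw [Complex.im_sum, Complex.im_ofReal_mul, him] at h
    rw [← h]
    refine sum_congr rfl fun B _ => ?_
    rw [Complex.im_ofReal_mul, hint, Complex.sub_im, him]
    simp
  by_cases h1 : ∃ c, cub F1 c ≠ 0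
  · refine ⟨F1, ⟨fun i j k => ?_, fun i j k => ?_⟩, fun j k => ?_, h1, e1⟩
    · simp only [hF1, s1 i j k]
    · simp only [hF1, s2 i j k]
    · simp only [hF1]
      rw [← Complex.re_sum, s3, Complex.zero_re]
  · have h2 : cub F2 c0 ≠ 0 := by
      intro h2
      apply hc0
      push Not at h1
      rw [hfc, h1, h2]
      simp
    refine ⟨F2, ⟨fun i j k => ?_, fun i j k => ?_⟩, fun j k => ?_, ⟨c0, h2⟩, e2⟩
    · simp only [hF2, s1 i j k]
    · simp only [hF2, s2 i j k]
    · simp only [hF2]
      rw [← Complex.im_sum, s3, Complex.zero_im]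

end Pool.Agent.BSE.H72
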