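import Pool.Agent.BSE.Stmts3

/-!
# UN3: a symmetric tensor with vanishing cubic form is zero
-/

set_option autoImplicit false

namespace Pool.Agent.BSE.H72

open Pool.Agent.BSE Finset

variable {n : ℕ}

/-- the trilinear form -/
def tri (F : Fin n → Fin n → Fin n → ℝ) (x y z : Fin n → ℝ) : ℝ :=
  ∑ i, ∑ j, ∑ k, F i j k * (x i * y j * z k)

theorem tri_add1 (F : Fin n → Fin n → Fin n → ℝ) (x x' y z : Fin n → ℝ) :
    tri F (x + x') y z = tri F x y z + tri F x' y z := by
  unfold tri
  simp only [← sum_add_distrib, Pi.add_apply]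
  refine sum_congr rfl fun i _ => sum_congr rfl fun j _ => sum_congr rfl fun k _ => ?_
  ring

theorem tri_swap12 {F : Fin n → Fin n → Fin n → ℝ} (hF : Sym3 F) (x y z : Fin n → ℝ) :
    tri F x y z = tri F y x z := by
  unfold tri
  rw [sum_comm]
  refine sum_congr rfl fun i _ => sum_congr rfl fun j _ => sum_congr rfl fun k _ => ?_
  rw [hF.1 j i k]
  ring

theorem tri_swap23 {F : Fin n → Fin n → Fin n → ℝ} (hF : Sym3 F) (x y z : Fin n → ℝ) :
    tri F x y z = tri F x z y := by
  unfold tri
  refine sum_congr rfl fun i _ => ?_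
  rw [sum_comm]
  refine sum_congr rfl fun j _ => sum_congr rfl fun k _ => ?_
  rw [hF.2 i k j]
  ring

theorem tri_neg1 (F : Fin n → Fin n → Fin n → ℝ) (x y z : Fin n → ℝ) :
    tri F (-x) y z = - tri F x y z := by
  unfold tri
  simp only [← sum_neg_distrib, Pi.neg_apply]
  refine sum_congr rfl fun i _ => sum_congr rfl fun j _ => sum_congr rfl fun k _ => ?_
  ring

theorem tri_single (F : Fin n → Fin n → Fin n → ℝ) (i j k : Fin n) :
    tri F (Pi.single i 1) (Pi.single j 1) (Pi.single k 1) = F i j k := by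
  unfold tri
  rw [sum_eq_single i, sum_eq_single j, sum_eq_single k]
  · simp
  · intro b _ hb
    simp [Pi.single_eq_of_ne hb]
  · simp
  · intro b _ hb
    simp [Pi.single_eq_of_ne hb]
  · simp
  · intro b _ hb
    simp [Pi.single_eq_of_ne hb]
  · simp

/-- UN3 -/
theorem un3 : UN3Stmt := by
  intro n F hF h0 i j k
  have h1 : ∀ x : Fin n → ℝ, tri F x x x = 0 := fun x => h0 x
  -- additivity in the other arguments
  have a2 : ∀ x y y' z : Fin n → ℝ, tri F x (y + y') z = tri F x y z + tri F x y' z := by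
    intro x y y' z
    rw [tri_swap12 hF, tri_add1, tri_swap12 hF y, tri_swap12 hF y']
  have a3 : ∀ x y z z' : Fin n → ℝ, tri F x y (z + z') = tri F x y z + tri F x y z' := by
    intro x y z z'
    rw [tri_swap23 hF, a2, tri_swap23 hF x z, tri_swap23 hF x z']
  have n2 : ∀ x y z : Fin n → ℝ, tri F x (-y) z = - tri F x y z := by
    intro x y z
    rw [tri_swap12 hF, tri_neg1, tri_swap12 hF y]
  have n3 : ∀ x y z : Fin n → ℝ, tri F x y (-z) = - tri F x y z := by
    intro x y z
    rw [tri_swap23 hF, n2, tri_swap23 hF x z]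
  have h2 : ∀ x y : Fin n → ℝ, tri F x x y + tri F x y y = 0 := by
    intro x y
    have h3 := h1 (x + y)
    simp only [tri_add1, a2, a3] at h3
    rw [h1 x, h1 y, tri_swap23 hF x y x, tri_swap12 hF y x x, tri_swap23 hF x y x,
      tri_swap12 hF y x y, tri_swap23 hF y y x, tri_swap12 hF y x y] at h3
    linarith
  have h4 : ∀ x y : Fin n → ℝ, tri F x x y = 0 := by
    intro x y
    have h5 := h2 x y
    have h6 := h2 x (-y)
    simp only [n2, n3] at h6
    linarith
  have h7 : ∀ x y z : Fin n → ℝ, tri F x y z = 0 := by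
    intro x y z
    have h8 := h4 (x + y) z
    simp only [tri_add1, a2] at h8
    rw [h4 x z, h4 y z, tri_swap12 hF y x z] at h8
    linarith
  rw [← tri_single F i j k]
  exact h7 _ _ _

end Pool.Agent.BSE.H72
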