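import Pool.Agent.BSE.Stmts5
import Pool.Agent.Helper72_BSE.RF3

/-!
# RF4: reduction to real tensors, levels `k = 3`, not totally symmetric
-/

set_option autoImplicit false

namespace Pool.Agent.BSE.H72

open Pool.Agent.BSE Pool.Agent.Helper64_FR Finset MeasureTheory

variable {n : ℕ}

theorem continuous_TB3 (B : Finset (Fin n)) (c : Fin 3 → Fin n → ℝ) :
    Continuous fun A : UB B => (fun s => TB B (A : UU n) (c s) : Fin 3 → Fin n → ℝ) :=
  continuous_pi fun s => continuous_TB B (c s)

theorem continuous_tri3 (F : Fin n → Fin n → Fin n → ℝ) : Continuous (tri3 F) := by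
  unfold tri3
  fun_prop

theorem integrable_tri3 (F : Fin n → Fin n → Fin n → ℝ) (B : Finset (Fin n))
    (c : Fin 3 → Fin n → ℝ) :
    Integrable (fun A : UB B => tri3 F (fun s => TB B (A : UU n) (c s))) (haarB B) := by
  unfold haarB
  exact ((continuous_tri3 F).comp (continuous_TB3 B c)).integrable_of_hasCompactSupport
    (HasCompactSupport.of_compactSpace _)

/-- the eigenvalue equation for real functions -/
def EQ (w : Finset (Fin n) → ℝ) (x : ℝ) (g : (Fin 3 → Fin n → ℝ) → ℝ) : Prop :=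
  ∀ c : Fin 3 → Fin n → ℝ, ∑ B : Finset (Fin n), w B *
    (g c - ∫ A : UB B, g (fun s => TB B (A : UU n) (c s)) ∂(haarB B)) = x * g c

theorem EQ_perm (w : Finset (Fin n) → ℝ) (x : ℝ) (F G : Fin n → Fin n → Fin n → ℝ)
    (π : Fin 3 → Fin 3) (hG : ∀ c : Fin 3 → Fin n → ℝ, tri3 G c = tri3 F (fun s => c (π s)))
    (h : EQ w x (tri3 F)) : EQ w x (tri3 G) := by
  intro c
  have h1 := h (fun s => c (π s))
  simp only [hG]
  exact h1

theorem EQ_add (w : Finset (Fin n) → ℝ) (x : ℝ) (F G K : Fin n → Fin n → Fin n → ℝ)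
    (hK : ∀ i j k, K i j k = F i j k + G i j k)
    (h1 : EQ w x (tri3 F)) (h2 : EQ w x (tri3 G)) : EQ w x (tri3 K) := by
  have hs : ∀ c : Fin 3 → Fin n → ℝ, tri3 K c = tri3 F c + tri3 G c := by
    intro c
    unfold tri3
    simp only [hK, add_mul, sum_add_distrib]
  intro c
  simp only [hs]
  have h3 : ∀ B : Finset (Fin n), w B * (tri3 F c + tri3 G c -
      ∫ A : UB B, (tri3 F (fun s => TB B (A : UU n) (c s)) +
        tri3 G (fun s => TB B (A : UU n) (c s))) ∂(haarB B)) =
      w B * (tri3 F c - ∫ A : UB B, tri3 F (fun s => TB B (A : UU n) (c s)) ∂(haarB B)) +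
      w B * (tri3 G c - ∫ A : UB B, tri3 G (fun s => TB B (A : UU n) (c s)) ∂(haarB B)) := by
    intro B
    rw [integral_add (integrable_tri3 F B c) (integrable_tri3 G B c)]
    ring
  simp only [h3]
  rw [sum_add_distrib, h1 c, h2 c]
  ring

theorem tri3_single (F : Fin n → Fin n → Fin n → ℝ) (e : Fin 3 → Fin n) :
    tri3 F (fun s => Pi.single (e s) 1) = F (e 0) (e 1) (e 2) := by
  unfold tri3
  rw [sum_eq_single (e 0), sum_eq_single (e 1), sum_eq_single (e 2)]
  · simp
  · intro k _ hk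
    simp [Pi.single_apply, hk]
  · intro h
    exact absurd (mem_univ _) h
  · intro j _ hj
    simp [Pi.single_apply, hj]
  · intro h
    exact absurd (mem_univ _) h
  · intro i _ hi
    simp [hi]
  · intro h
    exact absurd (mem_univ _) h

theorem perm_univ : (univ : Finset (Equiv.Perm (Fin 3))) =
    {1, Equiv.swap 0 1, Equiv.swap 0 2, Equiv.swap 1 2, Equiv.swap 0 1 * Equiv.swap 1 2,
      Equiv.swap 1 2 * Equiv.swap 0 1} := by
  decide

theorem sum_perm3 (g : Equiv.Perm (Fin 3) → ℝ) : ∑ σ : Equiv.Perm (Fin 3), g σ =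
    g 1 + g (Equiv.swap 0 1) + g (Equiv.swap 0 2) + g (Equiv.swap 1 2) +
      g (Equiv.swap 0 1 * Equiv.swap 1 2) + g (Equiv.swap 1 2 * Equiv.swap 0 1) := by
  rw [perm_univ, sum_insert (by decide), sum_insert (by decide), sum_insert (by decide),
    sum_insert (by decide), sum_insert (by decide), sum_singleton]
  ring

/-- permuting the slots of a real tensor -/
theorem tri3_p (F : Fin n → Fin n → Fin n → ℝ) (c : Fin 3 → Fin n → ℝ) :
    tri3 (fun i j k => F i k j) c = tri3 F (fun s => c ((![0, 2, 1] : Fin 3 → Fin 3) s)) ∧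
    tri3 (fun i j k => F j k i) c = tri3 F (fun s => c ((![1, 2, 0] : Fin 3 → Fin 3) s)) ∧
    tri3 (fun i j k => F k j i) c = tri3 F (fun s => c ((![2, 1, 0] : Fin 3 → Fin 3) s)) ∧
    tri3 (fun i j k => F j i k) c = tri3 F (fun s => c ((![1, 0, 2] : Fin 3 → Fin 3) s)) ∧
    tri3 (fun i j k => F k i j) c = tri3 F (fun s => c ((![2, 0, 1] : Fin 3 → Fin 3) s)) := by
  refine ⟨?_, ?_, ?_, ?_, ?_⟩
  · unfold tri3
    refine sum_congr rfl fun i _ => ?_
    rw [sum_comm]
    refine sum_congr rfl fun j _ => sum_congr rfl fun k _ => ?_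
    simp only [Matrix.cons_val_zero, Matrix.cons_val_one, Matrix.cons_val]
    ring
  · unfold tri3
    rw [sum_comm]
    refine sum_congr rfl fun j _ => ?_
    rw [sum_comm]
    refine sum_congr rfl fun k _ => sum_congr rfl fun i _ => ?_
    simp only [Matrix.cons_val_zero, Matrix.cons_val_one, Matrix.cons_val]
    ring
  · unfold tri3
    rw [sum_comm]
    rw [sum_congr rfl fun j _ => sum_comm]
    rw [sum_comm]
    refine sum_congr rfl fun k _ => sum_congr rfl fun j _ => sum_congr rfl fun i _ => ?_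
    simp only [Matrix.cons_val_zero, Matrix.cons_val_one, Matrix.cons_val]
    ring
  · unfold tri3
    rw [sum_comm]
    refine sum_congr rfl fun j _ => sum_congr rfl fun i _ => sum_congr rfl fun k _ => ?_
    simp only [Matrix.cons_val_zero, Matrix.cons_val_one, Matrix.cons_val]
    ring
  · unfold tri3
    rw [sum_congr rfl fun i _ => sum_comm]
    rw [sum_comm]
    refine sum_congr rfl fun k _ => sum_congr rfl fun i _ => sum_congr rfl fun j _ => ?_
    simp only [Matrix.cons_val_zero, Matrix.cons_val_one, Matrix.cons_val]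
    ring

/-- the real case -/
theorem rf4_real (w : Finset (Fin n) → ℝ) (x : ℝ) (F : Fin n → Fin n → Fin n → ℝ)
    (hE : EQ w x (tri3 F)) (hne : ∃ i j k, F i j k ≠ 0)
    (m0 : ∀ j k, ∑ i, F i j k = 0) (m1 : ∀ i k, ∑ j, F i j k = 0) (m2 : ∀ i j, ∑ k, F i j k = 0)
    (hs : ∀ i j k, F i j k + F j i k + F k j i + F i k j + F j k i + F k i j = 0) :
    ∃ φ : Fin n → Fin n → Fin n → ℝ, (Mix3 φ ∨ Alt3 φ) ∧ (∃ i j k, φ i j k ≠ 0) ∧
      EQ w x (tri3 φ) := by
  by_cases h1 : ∀ i j k, F i j k + F i k j = 0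
  · by_cases h2 : ∀ i j k, F i j k + F j i k = 0
    · refine ⟨F, Or.inr ⟨fun i j k => ?_, fun i j k => ?_, m0⟩, hne, hE⟩
      · linarith [h2 i j k]
      · linarith [h1 i j k]
    · push Not at h2
      obtain ⟨i0, j0, k0, h2⟩ := h2
      refine ⟨fun i j k => F j k i + F k j i, Or.inl ⟨fun i j k => ?_, fun i j k => ?_,
        fun j k => ?_, fun i k => ?_⟩, ⟨k0, i0, j0, h2⟩, ?_⟩
      · ring
      · linarith [hs i j k]
      · rw [sum_add_distrib, m2, m2, add_zero]
      · rw [sum_add_distrib, m0, m1, add_zero]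
      · refine EQ_add w x (fun i j k => F j k i) (fun i j k => F k j i) _ (fun _ _ _ => rfl) ?_ ?_
        · exact EQ_perm w x F _ _ (fun c => (tri3_p F c).2.1) hE
        · exact EQ_perm w x F _ _ (fun c => (tri3_p F c).2.2.1) hE
  · push Not at h1
    obtain ⟨i0, j0, k0, h1⟩ := h1
    refine ⟨fun i j k => F i j k + F i k j, Or.inl ⟨fun i j k => ?_, fun i j k => ?_,
      fun j k => ?_, fun i k => ?_⟩, ⟨i0, j0, k0, h1⟩, ?_⟩
    · ring
    · linarith [hs i j k]
    · rw [sum_add_distrib, m0, m0, add_zero]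
    · rw [sum_add_distrib, m1, m2, add_zero]
    · refine EQ_add w x F (fun i j k => F i k j) _ (fun _ _ _ => rfl) hE ?_
      exact EQ_perm w x F _ _ (fun c => (tri3_p F c).1) hE

/-- RF4 -/
theorem rf4 : RF4Stmt := by
  rintro n w x f ⟨N, a, X, hX, hf⟩ ⟨c0, hc0⟩ hE hsym
  set Φ : Fin n → Fin n → Fin n → ℂ := fun i j k => ∑ t, a t * (X t 0 i * X t 1 j * X t 2 k) with hΦ
  set F1 : Fin n → Fin n → Fin n → ℝ := fun i j k => (Φ i j k).re with hF1
  set F2 : Fin n → Fin n → Fin n → ℝ := fun i j k => (Φ i j k).im with hF2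
  have m0 : ∀ j k, ∑ i, Φ i j k = 0 := by
    intro j k
    simp only [hΦ]
    rw [sum_comm]
    refine sum_eq_zero fun t _ => ?_
    have h1 : ∀ i, a t * (X t 0 i * X t 1 j * X t 2 k) = a t * (X t 1 j * X t 2 k) * X t 0 i := by
      intro i
      ring
    simp only [h1]
    rw [← mul_sum, hX t, mul_zero]
  have m1 : ∀ i k, ∑ j, Φ i j k = 0 := by
    intro i k
    simp only [hΦ]
    rw [sum_comm]
    refine sum_eq_zero fun t _ => ?_
    have h1 : ∀ j, a t * (X t 0 i * X t 1 j * X t 2 k) = a t * (X t 0 i * X t 2 k) * X t 1 j := by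
      intro j
      ring
    simp only [h1]
    rw [← mul_sum, hX t, mul_zero]
  have m2 : ∀ i j, ∑ k, Φ i j k = 0 := by
    intro i j
    simp only [hΦ]
    rw [sum_comm]
    refine sum_eq_zero fun t _ => ?_
    have h1 : ∀ k, a t * (X t 0 i * X t 1 j * X t 2 k) = a t * (X t 0 i * X t 1 j) * X t 2 k := by
      intro k
      ring
    simp only [h1]
    rw [← mul_sum, hX t, mul_zero]
  have hfΦ : ∀ c : Fin 3 → Fin n → ℝ,
      f c = ∑ i, ∑ j, ∑ k, Φ i j k * ((c 0 i : ℂ) * c 1 j * c 2 k) := by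
    intro c
    rw [hf c]
    simp only [hΦ, sum_mul]
    have h1 : ∀ t, a t * ∏ s : Fin 3, ∑ i, X t s i * (c s i : ℂ) =
        ∑ i, ∑ j, ∑ k, a t * (X t 0 i * X t 1 j * X t 2 k) * ((c 0 i : ℂ) * c 1 j * c 2 k) := by
      intro t
      rw [Fin.prod_univ_three, sum_mul_sum, sum_mul, mul_sum]
      refine sum_congr rfl fun i _ => ?_
      rw [sum_mul_sum, mul_sum]
      refine sum_congr rfl fun j _ => ?_
      rw [mul_sum]
      refine sum_congr rfl fun k _ => ?_
      ring
    simp only [h1]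
    rw [sum_comm]
    refine sum_congr rfl fun i _ => ?_
    rw [sum_comm]
    refine sum_congr rfl fun j _ => ?_
    rw [sum_comm]
  have hre : ∀ c, (f c).re = tri3 F1 c := by
    intro c
    rw [hfΦ c]
    unfold tri3
    simp only [Complex.re_sum, hF1]
    refine sum_congr rfl fun i _ => sum_congr rfl fun j _ => sum_congr rfl fun k _ => ?_
    rw [← Complex.ofReal_mul, ← Complex.ofReal_mul, Complex.re_mul_ofReal]
  have him : ∀ c, (f c).im = tri3 F2 c := by
    intro c
    rw [hfΦ c]
    unfold tri3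
    simp only [Complex.im_sum, hF2]
    refine sum_congr rfl fun i _ => sum_congr rfl fun j _ => sum_congr rfl fun k _ => ?_
    rw [← Complex.ofReal_mul, ← Complex.ofReal_mul, Complex.im_mul_ofReal]
  have hfc : ∀ c, f c = (tri3 F1 c : ℂ) + (tri3 F2 c : ℂ) * Complex.I := by
    intro c
    rw [← hre, ← him, Complex.re_add_im]
  have hint : ∀ (B : Finset (Fin n)) (c : Fin 3 → Fin n → ℝ),
      ∫ A : UB B, f (fun s => TB B (A : UU n) (c s)) ∂(haarB B) =
        ((∫ A : UB B, tri3 F1 (fun s => TB B (A : UU n) (c s)) ∂(haarB B) : ℝ) : ℂ) +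
        ((∫ A : UB B, tri3 F2 (fun s => TB B (A : UU n) (c s)) ∂(haarB B) : ℝ) : ℂ) *
          Complex.I := by
    intro B c
    simp only [hfc]
    rw [integral_add (integrable_tri3 F1 B c).ofReal ((integrable_tri3 F2 B c).ofReal.mul_const _),
      integral_mul_const, integral_complex_ofReal, integral_complex_ofReal]
  have e1 : EQ w x (tri3 F1) := by
    intro c
    have h := congrArg Complex.re (hE c)
    rw [Complex.re_sum, Complex.re_ofReal_mul, hre] at h
    rw [← h]
    refine sum_congr rfl fun B _ => ?_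
    rw [Complex.re_ofReal_mul, hint, Complex.sub_re, hre]
    simp
  have e2 : EQ w x (tri3 F2) := by
    intro c
    have h := congrArg Complex.im (hE c)
    rw [Complex.im_sum, Complex.im_ofReal_mul, him] at h
    rw [← h]
    refine sum_congr rfl fun B _ => ?_
    rw [Complex.im_ofReal_mul, hint, Complex.sub_im, him]
    simp
  have hperm : ∀ (F : Fin n → Fin n → Fin n → ℝ),
      (∀ c : Fin 3 → Fin n → ℝ, ∑ σ : Equiv.Perm (Fin 3), tri3 F (fun s => c (σ s)) = 0) →
      ∀ i j k, F i j k + F j i k + F k j i + F i k j + F j k i + F k i j = 0 := by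
    intro F hF i j k
    have h := hF (fun s => Pi.single ((![i, j, k] : Fin 3 → Fin n) s) 1)
    have h1 : ∀ σ : Equiv.Perm (Fin 3),
        tri3 F (fun s => Pi.single ((![i, j, k] : Fin 3 → Fin n) (σ s)) 1) =
        F ((![i, j, k] : Fin 3 → Fin n) (σ 0)) ((![i, j, k] : Fin 3 → Fin n) (σ 1))
          ((![i, j, k] : Fin 3 → Fin n) (σ 2)) := by
      intro σ
      exact tri3_single F (fun s => (![i, j, k] : Fin 3 → Fin n) (σ s))
    simp only [h1] at h
    rw [sum_perm3] at h
    have a1 : (Equiv.swap (0 : Fin 3) 1) 0 = 1 := by decide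
    have a2 : (Equiv.swap (0 : Fin 3) 1) 1 = 0 := by decide
    have a3 : (Equiv.swap (0 : Fin 3) 1) 2 = 2 := by decide
    have b1 : (Equiv.swap (0 : Fin 3) 2) 0 = 2 := by decide
    have b2 : (Equiv.swap (0 : Fin 3) 2) 1 = 1 := by decide
    have b3 : (Equiv.swap (0 : Fin 3) 2) 2 = 0 := by decide
    have d1 : (Equiv.swap (1 : Fin 3) 2) 0 = 0 := by decide
    have d2 : (Equiv.swap (1 : Fin 3) 2) 1 = 2 := by decide
    have d3 : (Equiv.swap (1 : Fin 3) 2) 2 = 1 := by decide
    simp only [Equiv.Perm.coe_one, id_eq, Equiv.Perm.mul_apply, a1, a2, a3, b1, b2, b3, d1, d2,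
      d3] at h
    simp at h
    linarith
  have hs1 := hperm F1 (fun c => by
    have h := congrArg Complex.re (hsym c)
    rw [Complex.re_sum] at h
    simp only [hre] at h
    exact h)
  have hs2 := hperm F2 (fun c => by
    have h := congrArg Complex.im (hsym c)
    rw [Complex.im_sum] at h
    simp only [him] at h
    exact h)
  by_cases h1 : ∃ i j k, F1 i j k ≠ 0
  · refine rf4_real w x F1 e1 h1 (fun j k => ?_) (fun i k => ?_) (fun i j => ?_) hs1
    · simp only [hF1]
      rw [← Complex.re_sum, m0, Complex.zero_re]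
    · simp only [hF1]
      rw [← Complex.re_sum, m1, Complex.zero_re]
    · simp only [hF1]
      rw [← Complex.re_sum, m2, Complex.zero_re]
  · have h2 : ∃ i j k, F2 i j k ≠ 0 := by
      by_contra h2
      apply hc0
      push Not at h1 h2
      rw [hfc]
      unfold tri3
      simp [h1, h2]
    refine rf4_real w x F2 e2 h2 (fun j k => ?_) (fun i k => ?_) (fun i j => ?_) hs2
    · simp only [hF2]
      rw [← Complex.im_sum, m0, Complex.zero_im]
    · simp only [hF2]
      rw [← Complex.im_sum, m1, Complex.zero_im]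
    · simp only [hF2]
      rw [← Complex.im_sum, m2, Complex.zero_im]

end Pool.Agent.BSE.H72
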